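import Pool.Agent.helper54.XP.SpecL
import Pool.Agent.helper54.XP.SpecS

/-!
# Project xp: module SGN: two natural charts with the same centre agree up to sign
-/

set_option autoImplicit false

open Complex Metric Set Filter Topology MeasureTheory XP
open V3S (UF)

noncomputable section

namespace XPL

theorem SGN (hNU : XPS.NUX_stmt) : SGN_stmt := by
  intro P B χ χ₁ r r₁ hP hB hr hr₁ hχ hχ₁ h0
  obtain ⟨s, hs, -, hK, -⟩ := hNU P B χ₁ χ (ball 0 r₁) (ball 0 r) 0 0 hP hB isOpen_ball isOpen_ball
    hχ₁ hχ (mem_ball_self hr₁) (mem_ball_self hr) h0.symm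
  have hns : ‖s‖ = 1 := by
    rcases hs with rfl | rfl
    · exact norm_one
    · rw [norm_neg, norm_one]
  have hE := hK (ball 0 (min r r₁)) isOpen_ball (convex_ball _ _).isPreconnected
    (mem_ball_self (lt_min hr hr₁)) (by
      intro h hh
      rw [mem_ball_zero_iff, lt_min_iff] at hh
      rw [zero_add, zero_add, mem_ball_zero_iff, mem_ball_zero_iff, norm_mul, hns, one_mul]
      exact ⟨hh.2, hh.1⟩)
  rcases hs with rfl | rfl
  · refine ⟨χ, hχ, rfl, rfl, ?_, fun h => h⟩
    intro h hh
    have := hE h hh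
    rw [zero_add, zero_add, one_mul] at this
    exact this.symm
  · have hd : ∀ w, deriv (fun w => χ (-w)) w = -deriv χ (-w) := fun w => deriv_comp_neg χ w
    refine ⟨fun w => χ (-w), ⟨?_, ?_, ?_⟩, by simp, ?_, ?_, ?_⟩
    · exact hχ.diff.comp differentiable_neg.differentiableOn (fun w hw => by
        rw [mem_ball_zero_iff] at hw ⊢
        rwa [norm_neg])
    · intro w hw
      exact hχ.av (-w) (by rw [mem_ball_zero_iff] at hw ⊢; rwa [norm_neg])
    · intro w hw
      rw [hd, neg_sq]
      exact hχ.eq (-w) (by rw [mem_ball_zero_iff] at hw ⊢; rwa [norm_neg])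
    · rw [hd, norm_neg, neg_zero]
    · intro h hh
      have := hE h hh
      rw [zero_add, zero_add, neg_one_mul] at this
      exact this.symm
    · intro h w hw
      rw [hd, hd, neg_zero, neg_sub_neg, norm_neg, norm_sub_rev]
      exact h (-w) (by rw [mem_ball_zero_iff] at hw ⊢; rwa [norm_neg])

end XPL
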