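import Pool.Agent.helper54.XP.SpecG

/-!
# Project xp (MP_af9036_an): GML, the limit object (case I)
-/

set_option autoImplicit false

open Complex Metric Set Filter Topology MeasureTheory XP
open V3S (UF)
open V3 (ZL En)

noncomputable section

namespace XPG

theorem GML_zl_mem (t : ℂ) (n : ℤ) : (n : ℂ) * t ∈ ZL t := ⟨n, rfl⟩

/-- if the poles form a line of lattice points, all rotations are trivial. -/
theorem GML_A1 (P : Set ℂ) (A : ℂ → ℂ) (t : ℂ) (ht : t ≠ 0) (hP : P = ZL t)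
    (hA1 : ∀ p ∈ P, ‖A p‖ = 1)
    (hcom : ∀ p ∈ P, ∀ p' ∈ P, p + A p * p' = p' + A p' * p) : ∀ p ∈ P, A p = 1 := by
  intro p hp
  by_contra hne
  have hA' : 0 < ‖A p - 1‖ := norm_pos_iff.mpr (sub_ne_zero.mpr hne)
  have ht' : 0 < ‖t‖ := norm_pos_iff.mpr ht
  obtain ⟨n, hn⟩ := exists_nat_gt (2 * ‖p‖ / (‖A p - 1‖ * ‖t‖))
  have hp' : ((n : ℤ) : ℂ) * t ∈ P := by rw [hP]; exact GML_zl_mem t n
  have h1 : (((n : ℤ) : ℂ) * t) * (A p - 1) = p * (A (((n : ℤ) : ℂ) * t) - 1) := by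
    linear_combination hcom p hp _ hp'
  have h2 : ‖A (((n : ℤ) : ℂ) * t) - 1‖ ≤ 2 := by
    have := norm_sub_le (A (((n : ℤ) : ℂ) * t)) 1
    rw [hA1 _ hp', norm_one] at this
    linarith
  have h3 : ‖(((n : ℤ) : ℂ) * t)‖ = n * ‖t‖ := by
    rw [norm_mul]; simp
  have h4 : (n * ‖t‖) * ‖A p - 1‖ ≤ 2 * ‖p‖ := by
    rw [← h3, ← norm_mul, h1, norm_mul]
    nlinarith [mul_le_mul_of_nonneg_left h2 (norm_nonneg p)]
  rw [div_lt_iff₀ (by positivity)] at hn
  nlinarith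

/-- change of variables for the multiplication by `t`. -/
theorem GML_cv (t : ℂ) (ht : t ≠ 0) (S : Set ℂ) (hS : MeasurableSet S) (F : ℂ → ℝ) :
    ∫ z in S, F (t * z) = (‖t‖ ^ 2)⁻¹ * ∫ x in (fun z => t * z) '' S, F x := by
  have hdet : ((ContinuousLinearMap.toSpanSingleton ℂ t).restrictScalars ℝ : ℂ →L[ℝ] ℂ).det =
      ‖t‖ ^ 2 := by
    have h1 : ((ContinuousLinearMap.toSpanSingleton ℂ t).restrictScalars ℝ : ℂ →L[ℝ] ℂ).det =
      LinearMap.det (((ContinuousLinearMap.toSpanSingleton ℂ t : ℂ →L[ℂ] ℂ) :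
        ℂ →ₗ[ℂ] ℂ).restrictScalars ℝ) := rfl
    rw [h1, LinearMap.det_restrictScalars, Algebra.norm_complex_apply, LinearMap.det_ring]
    simp [Complex.normSq_eq_norm_sq]
  have hder : ∀ z ∈ S, HasFDerivWithinAt (fun z => t * z)
      ((ContinuousLinearMap.toSpanSingleton ℂ t).restrictScalars ℝ : ℂ →L[ℝ] ℂ) S z := by
    intro z _
    have h1 : HasDerivAt (fun z : ℂ => t * z) t z := by
      simpa using (hasDerivAt_id z).const_mul t
    exact (h1.hasFDerivAt.restrictScalars ℝ).hasFDerivWithinAt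
  have hinj : InjOn (fun z => t * z) S := fun a _ b _ h => mul_left_cancel₀ ht h
  rw [integral_image_eq_integral_abs_det_fderiv_smul volume hS hder hinj F, hdet,
    abs_of_nonneg (by positivity), integral_smul, smul_eq_mul]
  have : ‖t‖ ^ 2 ≠ 0 := by
    have := norm_pos_iff.mpr ht
    positivity
  field_simp

theorem GML (hGAL : GAL_stmt) (hGAN : GAN_stmt) (hGQE : GQE_stmt) (hGTH : GTH_stmt) (hGLB : GLB_stmt)
    (hGGR : GGR_stmt) (hGMF : GMF_stmt) (hGM1 : GM1_stmt) (hGEN : GEN_stmt) : GML_stmt := by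
  intro n C C' C'' D g hs hL hCI
  have hG : GG D g := hCI.gg
  obtain ⟨A, hA0⟩ := hGAL n C C' C'' D hs hL
  have hA : AL D A := hGAN n C C' C'' D A hs hL hA0
  obtain ⟨q, hqd, hqB⟩ := hGQE n C C' C'' D g hs hL hG
  obtain ⟨θ, hθ, hθl⟩ := hGTH n C C' C'' D hs
  obtain ⟨-, -, -, -, -, hsep, -⟩ := hGLB n C C' C'' D hs hL
  obtain ⟨hgrp, hcom, hvA, hBA⟩ := hGGR n C C' C'' D A hs hL hA
  have hEN := hGEN n C C' C'' D q θ hs hL hqd hqB hθ hθl C' (by have := hs.sa.C1; linarith)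
    (Eventually.of_forall fun m => by rw [hCI.s1 m, one_mul]; exact hs.sa.El m)
  have hMF := hGMF n C C' C'' D A hs hL hA
  have hM1 := hGM1 n C C' C'' D A hs hL hA
  refine ⟨A, q, θ, hA, ?_⟩
  refine ⟨hL.P0, hsep, hG.bd, hL.Bdiff, hG.pp, hG.b2, hL.vdiff, hL.vzero, hL.far, hqd, hqB, hA.nrm,
    hgrp, ?_, hcom, hvA, hBA, hθ, ?_, ?_⟩
  · intro p hp
    have hAp : A p ≠ 0 := by
      intro h0
      have := hA.nrm p hp
      rw [h0, norm_zero] at this
      exact zero_ne_one this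
    obtain ⟨h1, h2⟩ := hA.inv p hp
    refine ⟨-p / A p, h1, ?_, ?_⟩
    · field_simp
      ring
    · rw [h2]
      field_simp
  · -- eF
    intro hfin
    refine ⟨(Pin D).ncard * C', fun R hR => ?_⟩
    refine hEN R (ball 0 R) (Pin D).ncard isOpen_ball le_rfl ?_
    filter_upwards [hMF hfin R hR] with m hm z J hJ1 hJ2
    exact hm z J (Or.inr hJ1) hJ2
  · -- eZ
    intro t ht hP
    have ht' : 0 < ‖t‖ := norm_pos_iff.mpr ht
    have hA1 : ∀ p ∈ Pin D, A p = 1 := GML_A1 (Pin D) A t ht hP hA.nrm hcom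
    refine ⟨(‖t‖ ^ 2)⁻¹ * ((1 : ℕ) * C'), fun Y hY ε hε => ?_⟩
    have hS : IsOpen {z : ℂ | ε < z.re ∧ z.re < 1 - ε ∧ |z.im| < Y} := by
      refine (isOpen_lt continuous_const continuous_re).inter
        ((isOpen_lt continuous_re continuous_const).inter
          (isOpen_lt continuous_im.abs continuous_const))
    set S := {z : ℂ | ε < z.re ∧ z.re < 1 - ε ∧ |z.im| < Y} with hSdef
    have hopen : IsOpen ((fun z => t * z) '' S) := by
      have h1 := (Homeomorph.mulLeft₀ t ht).isOpenMap S hS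
      simpa using h1
    have hsub : (fun z => t * z) '' S ⊆ ball 0 (‖t‖ * (1 + Y)) := by
      rintro x ⟨z, hz, rfl⟩
      rw [mem_ball_zero_iff]
      show ‖t * z‖ < _
      rw [norm_mul]
      refine mul_lt_mul_of_pos_left ?_ ht'
      have h1 : ‖z‖ ≤ |z.re| + |z.im| := Complex.norm_le_abs_re_add_abs_im z
      have h2 : |z.re| < 1 := by
        rw [abs_lt]
        exact ⟨by linarith [hz.1, hε.1], by linarith [hz.2.1, hε.1]⟩
      linarith [hz.2.2]
    rw [GML_cv t ht S hS.measurableSet (En θ (Bin D) q)]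
    refine mul_le_mul_of_nonneg_left ?_ (by positivity)
    refine hEN (‖t‖ * (1 + Y)) _ 1 hopen hsub ?_
    have h2 := hM1 (‖t‖ * (1 + Y)) (2 * ε * ‖t‖) _ (by have := hε.1; positivity) hsub ?_
    · filter_upwards [h2] with m hm z J hJ1 hJ2
      exact hm z J (Or.inr hJ1) hJ2
    rintro x ⟨z, hz, rfl⟩ x' ⟨z', hz', rfl⟩ p hp hp0
    rw [hA1 p hp]
    rw [hP] at hp
    obtain ⟨k, rfl⟩ := hp
    have hk : k ≠ 0 := by
      rintro rfl
      simp at hp0
    show 2 * ε * ‖t‖ ≤ ‖t * z' - ((k : ℂ) * t + 1 * (t * z))‖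
    have e1 : t * z' - ((k : ℂ) * t + 1 * (t * z)) = t * (z' - z - k) := by ring
    rw [e1, norm_mul, mul_comm]
    refine mul_le_mul_of_nonneg_left ?_ (norm_nonneg _)
    have h3 : |(z' - z - k).re| ≤ ‖z' - z - k‖ := Complex.abs_re_le_norm _
    refine le_trans ?_ h3
    have h4 : (z' - z - k).re = z'.re - z.re - k := by simp
    rw [h4]
    have h5 : (1 : ℝ) ≤ |(k : ℝ)| := by exact_mod_cast Int.one_le_abs hk
    have hz1 := hz.1
    have hz2 := hz.2.1
    have hz1' := hz'.1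
    have hz2' := hz'.2.1
    rcases le_abs.mp h5 with h | h
    · refine le_trans ?_ (neg_le_abs _)
      linarith
    · refine le_trans ?_ (le_abs_self _)
      linarith

end XPG
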