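import Pool.Agent.helper60.XP.SpecT

/-!
# Project xp: module STS: the tower over a natural chart is a level system
-/

set_option autoImplicit false

open Complex Metric Set Filter Topology MeasureTheory
open V3S (UF)
open XP

noncomputable section

namespace XPT

lemma STS_sg {n : ℕ} {C A : ℝ} {D : Dat} (hG : D.Good n C A) : D.sg ≠ 0 := by
  have := hG.Rpos 0
  show ((D.R 0 : ℝ) : ℂ) ≠ 0
  exact_mod_cast this.ne'

lemma STS_zx {D : Dat} (hs : D.sg ≠ 0) (z : ℂ) : D.zz (D.xx z) = z := by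
  show D.b 0 + D.sg * ((z - D.b 0) / D.sg) = z
  field_simp
  ring

lemma STS_xz {D : Dat} (hs : D.sg ≠ 0) (x : ℂ) : D.xx (D.zz x) = x := by
  show (D.b 0 + D.sg * x - D.b 0) / D.sg = x
  field_simp
  ring

lemma STS_zF {D : Dat} (hs : D.sg ≠ 0) (j : ℕ) (x : ℂ) :
    D.zz (D.F j x) = (fun z => D.f.eval z)^[j] (D.zz x) := STS_zx hs _

lemma STS_Fadd {D : Dat} (hs : D.sg ≠ 0) (i j : ℕ) (x : ℂ) : D.F (i + j) x = D.F i (D.F j x) := by
  show D.xx ((fun z => D.f.eval z)^[i + j] (D.zz x)) =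
    D.xx ((fun z => D.f.eval z)^[i] (D.zz (D.F j x)))
  rw [STS_zF hs, Function.iterate_add_apply]

lemma STS_Fsucc {D : Dat} (j : ℕ) (x : ℂ) :
    D.xx (D.f.eval ((fun z => D.f.eval z)^[j] (D.zz x))) = D.F (j + 1) x := by
  show _ = D.xx ((fun z => D.f.eval z)^[j + 1] (D.zz x))
  rw [Function.iterate_succ_apply']

lemma STS_dzz (D : Dat) : Differentiable ℂ D.zz := by
  show Differentiable ℂ fun x => D.b 0 + D.sg * x
  fun_prop

lemma STS_dxx (D : Dat) : Differentiable ℂ D.xx := by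
  show Differentiable ℂ fun z => (z - D.b 0) / D.sg
  fun_prop

lemma STS_dit (D : Dat) (j : ℕ) : Differentiable ℂ (fun z => D.f.eval z)^[j] :=
  Differentiable.iterate D.f.differentiable j

lemma STS_dF (D : Dat) (j : ℕ) : Differentiable ℂ (D.F j) :=
  (STS_dxx D).comp ((STS_dit D j).comp (STS_dzz D))

lemma STS_fd {D : Dat} (hs : D.sg ≠ 0) (j : ℕ) (y : ℂ) (h : deriv (D.F (j + 1)) y ≠ 0) :
    PPS.fd D.f (D.zz (D.F j y)) ≠ 0 := by
  intro h0
  apply h
  have e : D.F (j + 1) = fun x => D.xx (D.f.eval (D.zz (D.F j x))) := by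
    funext x
    rw [STS_zF hs, STS_Fsucc]
  have h1 : HasDerivAt (fun x => D.zz (D.F j x)) (deriv (fun x => D.zz (D.F j x)) y) y :=
    (((STS_dzz D).comp (STS_dF D j)) y).hasDerivAt
  have h2 : HasDerivAt (fun z => D.f.eval z) (D.f.derivative.eval (D.zz (D.F j y)))
    (D.zz (D.F j y)) := D.f.hasDerivAt _
  have h3 := h2.comp y h1
  have h4 : HasDerivAt (fun z => D.xx z) (deriv (fun z => D.xx z) (D.f.eval (D.zz (D.F j y))))
    (D.f.eval (D.zz (D.F j y))) := (STS_dxx D _).hasDerivAt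
  have h5 := h4.comp y h3
  rw [e]
  have h6 := h5.deriv
  have h7 : D.f.derivative.eval (D.zz (D.F j y)) = 0 := h0
  rw [h7, zero_mul, mul_zero] at h6
  exact h6

/-- position of a level. -/
lemma STS_pos {K N k q : ℕ} (hk : 0 < k) (hK : K = N * k) (hq : q < K) :
    (K - 1 - q) / k < N ∧ (K - 1 - q) % k < k ∧
      K - (q + 1) = (K - 1 - q) % k + (K - 1 - q) / k * k ∧
      K - q = ((K - 1 - q) % k + 1) + (K - 1 - q) / k * k := by
  have h1 : (K - 1 - q) % k + (K - 1 - q) / k * k = K - 1 - q := Nat.mod_add_div' _ _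
  refine ⟨?_, Nat.mod_lt _ hk, by omega, by omega⟩
  rw [Nat.div_lt_iff_lt_mul hk, ← hK]
  omega

theorem STS : STS_stmt := by
  intro n C A c CK D hG hD x₀ ρ r χ Ψ hS
  have hs : D.sg ≠ 0 := STS_sg hG
  have hk : 0 < D.k := lt_of_lt_of_le (by norm_num) hG.hk
  set Ω : Set ℂ := ball 0 (2 * r) with hΩ
  have hΩo : IsOpen Ω := isOpen_ball
  -- the base point
  set X : ℂ → ℂ := fun w => D.xx (χ w) with hX
  have hXm : ∀ w ∈ Ω, X w ∈ ball x₀ ρ := hS.mp
  have hXd : DifferentiableOn ℂ X Ω := (STS_dxx D).comp_differentiableOn hS.nat.diff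
  have hPd : DifferentiableOn ℂ (fun w => Ψ (X w)) Ω := hS.psd.comp hXd hXm
  have htw : ∀ q w, tw D Ψ χ q w = D.zz (D.F (D.K - q) (Ψ (X w))) := fun q w => rfl
  -- level zero
  have h0 : EqOn (tw D Ψ χ 0) χ Ω := by
    intro w hw
    rw [htw, Nat.sub_zero, hS.psi _ (hXm w hw)]
    exact STS_zx hs _
  -- the iterates
  have hy : ∀ q < D.K, ∀ w ∈ Ω, D.F ((D.K - 1 - q) / D.k * D.k) (Ψ (X w)) ∈ ball (0 : ℂ) c := by
    intro q hq w hw
    obtain ⟨h1, -, -, -⟩ := STS_pos hk rfl hq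
    exact hS.psr _ h1.le _ (hXm w hw)
  have hz : ∀ q < D.K, ∀ w, tw D Ψ χ q w =
      D.zz (D.F ((D.K - 1 - q) % D.k + 1) (D.F ((D.K - 1 - q) / D.k * D.k) (Ψ (X w)))) := by
    intro q hq w
    obtain ⟨-, -, -, h4⟩ := STS_pos hk (rfl : D.K = D.N * D.k) hq
    rw [htw, ← STS_Fadd hs, ← h4]
  have hz' : ∀ q < D.K, ∀ w, tw D Ψ χ (q + 1) w =
      D.zz (D.F ((D.K - 1 - q) % D.k) (D.F ((D.K - 1 - q) / D.k * D.k) (Ψ (X w)))) := by
    intro q hq w
    obtain ⟨-, -, h3, -⟩ := STS_pos hk (rfl : D.K = D.N * D.k) hq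
    rw [htw, ← STS_Fadd hs, ← h3]
  have hrng : ∀ q < D.K, ∀ w ∈ Ω, tw D Ψ χ q w ∈
      ball (D.b ((((D.K - 1 - q) % D.k + 1 : ℕ)) : ZMod D.k))
        (D.R ((((D.K - 1 - q) % D.k + 1 : ℕ)) : ZMod D.k) / 4) := by
    intro q hq w hw
    obtain ⟨-, h2, -, -⟩ := STS_pos hk (rfl : D.K = D.N * D.k) hq
    rw [hz q hq]
    exact hD.rng _ h2 _ (hy q hq w hw)
  -- iterates of the tower
  have hit : ∀ q ≤ D.K, ∀ w, (fun z => D.f.eval z)^[q] (tw D Ψ χ q w) = tw D Ψ χ 0 w := by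
    intro q hq w
    rw [htw, htw, STS_zF hs, STS_zF hs, ← Function.iterate_add_apply, Nat.sub_zero]
    rw [show q + (D.K - q) = D.K by omega]
  -- injectivity of the chart
  have hχi : InjOn χ Ω := by
    have ha : deriv χ 0 ≠ 0 := by
      intro h
      have := hS.nat.eq 0 (mem_ball_self (by have := hS.r0; linarith))
      rw [h] at this
      norm_num at this
    have hd : ∀ w ∈ Ω, HasDerivWithinAt (fun w => χ w - deriv χ 0 * w) (deriv χ w - deriv χ 0) Ω w := by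
      intro w hw
      have h1 : HasDerivAt χ (deriv χ w) w :=
        ((hS.nat.diff w hw).differentiableAt (hΩo.mem_nhds hw)).hasDerivAt
      have h2 : HasDerivAt (fun w : ℂ => deriv χ 0 * w) (deriv χ 0) w := by
        simpa using (hasDerivAt_id w).const_mul (deriv χ 0)
      exact (h1.sub h2).hasDerivWithinAt
    intro w hw w' hw' he
    have h3 := (convex_ball (0 : ℂ) (2 * r)).norm_image_sub_le_of_norm_hasDerivWithin_le
      hd (fun z hz => hS.aff z hz) hw hw'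
    have he' : χ w = χ w' := he
    have h4 : χ w' - deriv χ 0 * w' - (χ w - deriv χ 0 * w) = -(deriv χ 0 * (w' - w)) := by
      rw [he']; ring
    have h5 : ‖χ w' - deriv χ 0 * w' - (χ w - deriv χ 0 * w)‖ ≤ ‖deriv χ 0‖ / 10 * ‖w' - w‖ := h3
    rw [h4, norm_neg, norm_mul] at h5
    have h6 : 0 < ‖deriv χ 0‖ := norm_pos_iff.mpr ha
    have h7 : ‖w' - w‖ = 0 := by
      have := norm_nonneg (w' - w)
      nlinarith
    have h8 : w' - w = 0 := norm_eq_zero.mp h7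
    exact (sub_eq_zero.mp h8).symm
  refine ⟨⟨⟨?_, ?_, ?_⟩, ?_, ?_⟩, h0, ?_, ?_, ?_⟩
  · exact hS.nat.diff.congr h0
  · intro w hw
    rw [h0 hw]
    exact hS.nat.av w hw
  · intro w hw
    have he : tw D Ψ χ 0 =ᶠ[𝓝 w] χ := h0.eventuallyEq_of_mem (hΩo.mem_nhds hw)
    rw [he.deriv_eq, h0 hw]
    exact hS.nat.eq w hw
  · intro q _
    exact ((STS_dzz D).comp (STS_dF D (D.K - q))).comp_differentiableOn hPd
  · intro q hq w hw
    obtain ⟨h1, h2, h3, h4⟩ := STS_pos hk (rfl : D.K = D.N * D.k) hq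
    refine ⟨?_, ?_⟩
    · rw [htw, htw, STS_zF hs, STS_zF hs, show D.K - q = D.K - (q + 1) + 1 by omega,
        Function.iterate_succ_apply']
    · rw [hz' q hq]
      apply STS_fd hs
      exact (hD.ds _ h2 _ (ball_subset_ball hD.le (hy q hq w hw))).1
  · intro q hq w hw w' hw' he
    apply hχi hw hw'
    rw [← h0 hw, ← h0 hw', ← hit q hq, ← hit q hq, he]
  · intro q hq w hw
    have h1 := hrng q hq w hw
    have h2 := hG.Rpos ((((D.K - 1 - q) % D.k + 1 : ℕ)) : ZMod D.k)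
    have h3 := hG.A1
    have h4 := (hG.invi _ _ (ball_subset_ball (by nlinarith) h1)).2.2
    rwa [mem_ball_zero_iff]
  · intro z S hS'
    have hle : S.card ≤ (Finset.range D.N).card := by
      apply Finset.card_le_card_of_injOn (fun q => (D.K - 1 - q) / D.k)
      · intro q hq
        obtain ⟨h1, -, -, -⟩ := STS_pos hk (rfl : D.K = D.N * D.k) (hS' q hq).1
        simpa using h1
      · intro q₁ hq₁ q₂ hq₂ he
        obtain ⟨hK₁, w₁, hw₁, e₁⟩ := hS' q₁ hq₁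
        obtain ⟨hK₂, w₂, hw₂, e₂⟩ := hS' q₂ hq₂
        obtain ⟨-, a2, a3, -⟩ := STS_pos hk (rfl : D.K = D.N * D.k) hK₁
        obtain ⟨-, b2, b3, -⟩ := STS_pos hk (rfl : D.K = D.N * D.k) hK₂
        have he' : (D.K - 1 - q₁) / D.k = (D.K - 1 - q₂) / D.k := he
        have e3 : D.zz (D.F ((D.K - 1 - q₁) % D.k + 1)
            (D.F ((D.K - 1 - q₁) / D.k * D.k) (Ψ (X w₁)))) =
            D.zz (D.F ((D.K - 1 - q₂) % D.k + 1)
            (D.F ((D.K - 1 - q₂) / D.k * D.k) (Ψ (X w₂)))) := by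
          rw [← hz q₁ hK₁, ← hz q₂ hK₂, e₁, e₂]
        have e4 := congrArg D.xx e3
        rw [STS_xz hs, STS_xz hs] at e4
        have e5 := hD.dj _ _ (by omega) a2 (by omega) b2 _ (hy q₁ hK₁ w₁ hw₁) _
          (hy q₂ hK₂ w₂ hw₂) e4
        have e6 : (D.K - 1 - q₁) % D.k = (D.K - 1 - q₂) % D.k := by omega
        rw [he', e6, ← b3] at a3
        omega
    simpa using hle

end XPT
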